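import Pool.Agent.W_3283e1_h53.GauLawX

set_option autoImplicit false

/-- The growth law of the Gaussian means of the Birch and Swinnerton-Dyer product of the curves
`y² = x³ + c k² x`, `c = ±1`.  `L` is the L-function (Euler factors at the primes not dividing `2k`),
`r`, `l` its order and leading coefficient at `1`, `P` the product and `C = √2 e^{rγ}/|l|`; `M A U` is
the mean of `log (P(e^u)/(C u^r))` with respect to the normal density with centre `U` and variance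
`A U`.  With `σ = Re s - 1 > 0`, `t = Im s`, the level of a zero `s` of `L` is `σ + A (σ² - t²)/2`.  The
mean decays exponentially if and only if `L` has no zero of level `≥ 0` (`A t² ≤ A σ² + 2σ`);
otherwise there is a zero of the largest level `y`, and `y` is the exact exponential order of the
mean.  `L` has no zeros in `Re s > 1` if and only if the means decay exponentially for
every `A > 0`.  For small `k` they do, unconditionally, for all `A ≥ 16/5`. -/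
theorem Pool.Agent.Results.MP_3283e1_nt.GaussianMeans.result
    (k : ℕ) (hk : 0 < k) (c : ℤ) (hc : c = 1 ∨ c = -1) :
    ∃ L : ℂ → ℂ, Differentiable ℂ L ∧
      (∀ s : ℂ, 3 / 2 < s.re → HasProd (fun p : {p : ℕ // p.Prime ∧ ¬ p ∣ 2 * k} =>
        (1 - ((p : ℂ) + 1 - (W3283e1.npts (c * k ^ 2) 0 p : ℂ)) * (p : ℂ) ^ (-s)
          + (p : ℂ) ^ (1 - 2 * s))⁻¹) (L s)) ∧
      ∃ (r : ℕ) (l : ℝ), l ≠ 0 ∧
        Filter.Tendsto (fun s : ℂ => L s / (s - 1) ^ r) (nhdsWithin 1 {1}ᶜ) (nhds (l : ℂ)) ∧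
        ∃ M : ℝ → ℝ → ℝ,
          (∀ A U : ℝ, M A U = (Real.sqrt (2 * Real.pi * (A * U)))⁻¹ *
            ∫ u in Set.Ioi (0 : ℝ), Real.log (W3283e1.bsdProd (c * k ^ 2) 0 (Real.exp u) /
              (Real.sqrt 2 * Real.exp (r * Real.eulerMascheroniConstant) / |l| * u ^ r)) *
                Real.exp (-(u - U) ^ 2 / (2 * (A * U)))) ∧
          -- exponential decay
          (∀ A : ℝ, 0 < A →
            ((∃ κ K : ℝ, 0 < κ ∧ ∀ U : ℝ, 1 ≤ U → |M A U| ≤ K * Real.exp (-(κ * U))) ↔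
              ∀ s : ℂ, 1 < s.re →
                A * s.im ^ 2 ≤ A * (s.re - 1) ^ 2 + 2 * (s.re - 1) → L s ≠ 0)) ∧
          -- the growth exponent in the other case
          (∀ A : ℝ, 0 < A → ∀ s₁ : ℂ, 1 < s₁.re → L s₁ = 0 →
            A * s₁.im ^ 2 ≤ A * (s₁.re - 1) ^ 2 + 2 * (s₁.re - 1) →
            ∃ (s₀ : ℂ) (y : ℝ), 1 < s₀.re ∧ L s₀ = 0 ∧
              y = (s₀.re - 1) + A * ((s₀.re - 1) ^ 2 - s₀.im ^ 2) / 2 ∧
              (∀ s : ℂ, 1 < s.re → L s = 0 →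
                (s.re - 1) + A * ((s.re - 1) ^ 2 - s.im ^ 2) / 2 ≤ y) ∧
              ∀ ε : ℝ, 0 < ε →
                (∃ K : ℝ, ∀ U : ℝ, 1 ≤ U → |M A U| ≤ K * Real.exp ((y + ε) * U)) ∧
                ¬ ∃ K : ℝ, ∀ U : ℝ, 1 ≤ U → |M A U| ≤ K * Real.exp ((y - ε) * U)) ∧
          -- all `A`
          ((∀ s : ℂ, 1 < s.re → L s ≠ 0) ↔ ∀ A : ℝ, 0 < A →
            ∃ κ K : ℝ, 0 < κ ∧ ∀ U : ℝ, 1 ≤ U → |M A U| ≤ K * Real.exp (-(κ * U))) ∧
          -- small `k`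
          (((c = -1 ∧ k ≤ 7) ∨ (c = 1 ∧ k ≤ 4)) →
            (((c = -1 ∧ 5 ≤ k) ∨ (c = 1 ∧ k = 3)) → r = 1) ∧
            (¬ ((c = -1 ∧ 5 ≤ k) ∨ (c = 1 ∧ k = 3)) → r = 0) ∧
            ∀ A : ℝ, 16 / 5 ≤ A →
              ∃ κ K : ℝ, 0 < κ ∧ ∀ U : ℝ, 1 ≤ U → |M A U| ≤ K * Real.exp (-(κ * U))) := by
  obtain ⟨n, f, i, j, L, r, l, V, h⟩ := W3283g.setup k hk c hc
  refine ⟨L, h.hL, h.hprod, r, l, h.hl, h.hlim,
    W3283g.gP (c * k ^ 2) 0 (Real.sqrt 2 * Real.exp (r * Real.eulerMascheroniConstant) / |l|) r,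
    fun A U => rfl, fun A hA => W3283g.main_dec k c n f i j L r l V h A hA,
    fun A hA s h1 h2 h3 => W3283g.main_exact k c n f i j L r l V h A hA s h1 h2 h3,
    W3283g.main_rhg k c n f i j L r l V h,
    fun hsm => W3283g.main_small k c n f i j L r l V h hsm⟩
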