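import Pool.Agent.W_3283e1_lw.FinB
import Pool.Agent.W_3283e1_sm.Main

set_option autoImplicit false

/-- Littlewood's theorem for the Birch and Swinnerton-Dyer product `P` of `y² = x³ + c k² x`, `c = ±1`.
`L` is the L-function (Euler factors at the primes not dividing `2k`), `r`, `l` its order and leading
coefficient at `1`, `C = √2 e^{rγ}/|l|`.  For every `lam < 1`, `P` exceeds
`C (log x)^r (1 + lam log log log x / log x)` for arbitrarily large `x`, and it is smaller than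
`C (log x)^r (1 - lam log log log x / log x)` for arbitrarily large `x` if `L` has no real zero
beyond `1`, in particular for small `k`. -/
theorem Pool.Agent.Results.MP_3283e1_nt.LittlewoodOscillation.result
    (k : ℕ) (hk : 0 < k) (c : ℤ) (hc : c = 1 ∨ c = -1) :
    ∃ L : ℂ → ℂ, Differentiable ℂ L ∧
      (∀ s : ℂ, 3 / 2 < s.re → HasProd (fun p : {p : ℕ // p.Prime ∧ ¬ p ∣ 2 * k} =>
        (1 - ((p : ℂ) + 1 - (W3283e1.npts (c * k ^ 2) 0 p : ℂ)) * (p : ℂ) ^ (-s)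
          + (p : ℂ) ^ (1 - 2 * s))⁻¹) (L s)) ∧
      ∃ (r : ℕ) (l : ℝ), l ≠ 0 ∧
        Filter.Tendsto (fun s : ℂ => L s / (s - 1) ^ r) (nhdsWithin 1 {1}ᶜ) (nhds (l : ℂ)) ∧
        (∀ lam X : ℝ, lam < 1 → ∃ x : ℝ, X ≤ x ∧
          Real.sqrt 2 * Real.exp (r * Real.eulerMascheroniConstant) / |l| * (Real.log x) ^ r *
            (1 + lam * Real.log (Real.log (Real.log x)) / Real.log x) ≤
              W3283e1.bsdProd (c * k ^ 2) 0 x) ∧
        ((∀ σ : ℝ, 1 < σ → L σ ≠ 0) → ∀ lam X : ℝ, lam < 1 → ∃ x : ℝ, X ≤ x ∧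
          W3283e1.bsdProd (c * k ^ 2) 0 x ≤
            Real.sqrt 2 * Real.exp (r * Real.eulerMascheroniConstant) / |l| * (Real.log x) ^ r *
              (1 - lam * Real.log (Real.log (Real.log x)) / Real.log x)) ∧
        (((c = -1 ∧ k ≤ 7) ∨ (c = 1 ∧ k ≤ 4)) → ∀ σ : ℝ, 1 < σ → L σ ≠ 0) := by
  obtain ⟨n, f, i, j, L, r, l, V, h⟩ := W3283g.setup k hk c hc
  refine ⟨L, h.hL, h.hprod, r, l, h.hl, h.hlim,
    fun lam X hlam => W3283l.main_lit_up k c n f i j L r l V h lam X hlam,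
    fun hreal lam X hlam => W3283l.main_lit_dn k c n f i j L r l V h hreal lam X hlam,
    fun hsm σ hσ => ?_⟩
  have h1 := W3283s.no_real k c L ⟨hk, hc, h.hL, h.hprod⟩ hsm (σ - 1) (by linarith)
  have h2 : (1 : ℂ) + ((σ - 1 : ℝ) : ℂ) = (σ : ℂ) := by push_cast; ring
  rwa [h2] at h1
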