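import Pool.Agent.W_3283e1_h97.LocG
import Pool.Agent.W_3283e1_sh.MnA
import Pool.Agent.W_3283e1_h53.FinH1
import Pool.Agent.W_3283e1_sm.Main

set_option autoImplicit false

/-- The Birch and Swinnerton-Dyer product in short intervals, for `y² = x³ + c k² x`, `c = ±1`.  `L` is the
L-function (Euler factors at the primes not dividing `2k`), `r`, `l` its order and leading coefficient
at `1`, `R x = P(x) / (C (log x)^r)`, `C = √2 e^{rγ}/|l|`.  The amplitude `D` is `K / log x` (any `K > 0`), or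
`x^δ` if `L` has a zero with real part larger than `1 + δ`.  All statements are for `X ≥ X0`.
Part 1 (all the curves): `[X, X exp ((log log X)^b)]`, `b > 2`, contains an `x` with `R x ≥ exp (D x)`.
Part 2 (`L` without real zeros beyond `1`): it contains an `x` with `R x ≤ exp (-D x)`, and a `y` with
`|R y - 1| ≤ 5/√y`: the asymptotic `P ~ C (log x)^r` with a square root error.  The interval
`[X, X^{1+η}]` contains at least `c0 η log X` alternations of `R` between `≥ exp (D x)` and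
`≤ exp (-D x)`, with a point where `|R y - 1| ≤ 5/√y` between any two consecutive ones.
Part 3: for small `k` there are no real zeros beyond `1`, and `r` is explicit. -/
theorem Pool.Agent.Results.MP_3283e1_nt.SequenceAsymptotic.result
    (k : ℕ) (hk : 0 < k) (c : ℤ) (hc : c = 1 ∨ c = -1) :
    ∃ L : ℂ → ℂ, Differentiable ℂ L ∧
      (∀ s : ℂ, 3 / 2 < s.re → HasProd (fun p : {p : ℕ // p.Prime ∧ ¬ p ∣ 2 * k} =>
        (1 - ((p : ℂ) + 1 - (W3283e1.npts (c * k ^ 2) 0 p : ℂ)) * (p : ℂ) ^ (-s)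
          + (p : ℂ) ^ (1 - 2 * s))⁻¹) (L s)) ∧
      ∃ (r : ℕ) (l : ℝ), l ≠ 0 ∧
        Filter.Tendsto (fun s : ℂ => L s / (s - 1) ^ r) (nhdsWithin 1 {1}ᶜ) (nhds (l : ℂ)) ∧
        ∃ R : ℝ → ℝ,
          (∀ x : ℝ, R x = W3283e1.bsdProd (c * k ^ 2) 0 x /
            (Real.sqrt 2 * Real.exp (r * Real.eulerMascheroniConstant) / |l| *
              (Real.log x) ^ r)) ∧
          (∀ D : ℝ → ℝ, ((∃ K : ℝ, 0 < K ∧ ∀ x : ℝ, 1 < x → D x = K / Real.log x) ∨
              ∃ (s : ℂ) (δ : ℝ), L s = 0 ∧ 0 < δ ∧ 1 + δ < s.re ∧ ∀ x : ℝ, D x = x ^ δ) →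
            ∀ b : ℝ, 2 < b → ∃ X0 : ℝ, ∀ X : ℝ, X0 ≤ X → ∃ x : ℝ, X ≤ x ∧
              x ≤ X * Real.exp ((Real.log (Real.log X)) ^ b) ∧ Real.exp (D x) ≤ R x) ∧
          ((∀ σ : ℝ, 1 < σ → L σ ≠ 0) →
            (∀ D : ℝ → ℝ, ((∃ K : ℝ, 0 < K ∧ ∀ x : ℝ, 1 < x → D x = K / Real.log x) ∨
                ∃ (s : ℂ) (δ : ℝ), L s = 0 ∧ 0 < δ ∧ 1 + δ < s.re ∧ ∀ x : ℝ, D x = x ^ δ) →
              (∀ b : ℝ, 2 < b → ∃ X0 : ℝ, ∀ X : ℝ, X0 ≤ X → ∃ x : ℝ, X ≤ x ∧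
                x ≤ X * Real.exp ((Real.log (Real.log X)) ^ b) ∧ R x ≤ Real.exp (-D x)) ∧
              ∃ c0 : ℝ, 0 < c0 ∧ ∀ η : ℝ, 0 < η → η ≤ 1 → ∃ X0 : ℝ, ∀ X : ℝ, X0 ≤ X →
                ∃ (N : ℕ) (x y : ℕ → ℝ), c0 * (η * Real.log X) ≤ N ∧ X ≤ x 0 ∧
                  x N ≤ X ^ (1 + η) ∧
                  (∀ a < N, x a < y a ∧ y a < x (a + 1) ∧
                    |R (y a) - 1| ≤ 5 / Real.sqrt (y a)) ∧
                  ∀ a ≤ N, (Even a → Real.exp (D (x a)) ≤ R (x a)) ∧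
                    (¬ Even a → R (x a) ≤ Real.exp (-D (x a)))) ∧
            ∀ b : ℝ, 2 < b → ∃ X0 : ℝ, ∀ X : ℝ, X0 ≤ X → ∃ y : ℝ, X ≤ y ∧
              y ≤ X * Real.exp ((Real.log (Real.log X)) ^ b) ∧
              |R y - 1| ≤ 5 / Real.sqrt y) ∧
          (((c = -1 ∧ k ≤ 7) ∨ (c = 1 ∧ k ≤ 4)) →
            (∀ σ : ℝ, 1 < σ → L σ ≠ 0) ∧
            (((c = -1 ∧ 5 ≤ k) ∨ (c = 1 ∧ k = 3)) → r = 1) ∧
            (¬ ((c = -1 ∧ 5 ≤ k) ∨ (c = 1 ∧ k = 3)) → r = 0)) := by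
  obtain ⟨n, f, i, j, L, r, l, V, h⟩ := W3283g.setup k hk c hc
  have hCG := W3283l.CG_pos r l h.hl
  refine ⟨L, h.hL, h.hprod, r, l, h.hl, h.hlim,
    fun x => W3283e1.bsdProd (c * k ^ 2) 0 x / (W3283l.CG r l * (Real.log x) ^ r),
    fun x => rfl, fun D hD b hb => ?_, fun hreal => ⟨fun D hD => ⟨fun b hb => ?_, ?_⟩,
    fun b hb => ?_⟩,
    fun hsm => ⟨?_, ?_, ?_⟩⟩
  · obtain ⟨X0, hX0⟩ := W3283p.shA_up b hb k c n f i j L r l V h D hD
    refine ⟨max X0 2, fun X hX => ?_⟩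
    obtain ⟨x, h1, h2, h3⟩ := hX0 X ((le_max_left _ _).trans hX)
    have hx : 2 ≤ x := ((le_max_right _ _).trans hX).trans h1
    refine ⟨x, h1, h2, ?_⟩
    have hT : 0 < W3283l.CG r l * (Real.log x) ^ r :=
      mul_pos hCG (pow_pos (Real.log_pos (by linarith)) r)
    rw [le_div_iff₀ hT, mul_comm (Real.exp _) _]
    exact h3
  · obtain ⟨X0, hX0⟩ := W3283p.shA_dn b hb k c n f i j L r l V h hreal D hD
    refine ⟨max X0 2, fun X hX => ?_⟩
    obtain ⟨x, h1, h2, h3⟩ := hX0 X ((le_max_left _ _).trans hX)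
    have hx : 2 ≤ x := ((le_max_right _ _).trans hX).trans h1
    refine ⟨x, h1, h2, ?_⟩
    have hT : 0 < W3283l.CG r l * (Real.log x) ^ r :=
      mul_pos hCG (pow_pos (Real.log_pos (by linarith)) r)
    rw [div_le_iff₀ hT, mul_comm (Real.exp _) _]
    exact h3
  · obtain ⟨c0, hc0, hh⟩ := W3283c.main_loc k c n f i j L r l V h hreal D hD
    refine ⟨c0, hc0, fun η hη hη1 => ?_⟩
    obtain ⟨X0, hX0⟩ := hh η hη hη1
    refine ⟨max X0 2, fun X hX => ?_⟩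
    obtain ⟨N, x, y, h1, h2, h3, h4, h5⟩ := hX0 X ((le_max_left _ _).trans hX)
    refine ⟨N, x, y, h1, h2, h3, h4, fun a ha => ?_⟩
    have hx : ∀ b : ℕ, b ≤ N → 2 ≤ x b := by
      intro b
      induction b with
      | zero => exact fun _ => ((le_max_right _ _).trans hX).trans h2
      | succ b ih =>
        intro hb
        have g1 := ih (by omega)
        obtain ⟨g2, g3, -⟩ := h4 b (by omega)
        linarith
    have hT : 0 < W3283l.CG r l * (Real.log (x a)) ^ r :=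
      mul_pos hCG (pow_pos (Real.log_pos (by linarith [hx a ha])) r)
    obtain ⟨h6, h7⟩ := h5 a ha
    constructor
    · intro hev
      rw [le_div_iff₀ hT, mul_comm (Real.exp _) _]
      exact h6 hev
    · intro hod
      rw [div_le_iff₀ hT, mul_comm (Real.exp _) _]
      exact h7 hod
  · exact W3283p.shA_cross b hb k c n f i j L r l V h hreal
  · intro σ hσ
    have h1 := W3283s.no_real k c L ⟨hk, hc, h.hL, h.hprod⟩ hsm (σ - 1) (by linarith)
    have h2 : (1 : ℂ) + ((σ - 1 : ℝ) : ℂ) = (σ : ℂ) := by push_cast; ring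
    rwa [h2] at h1
  · exact (W3283g.main_small k c n f i j L r l V h hsm).1
  · exact (W3283g.main_small k c n f i j L r l V h hsm).2.1
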