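import Pool.Agent.W_3283e1_v3.TriF

set_option autoImplicit false

/-- Trichotomy for the Birch and Swinnerton-Dyer product `P` of `y² = x³ + c k² x`, `c = ±1`.
`L` is the L-function (Euler factors at the primes not dividing `2k`), `r`, `l` its order and leading
coefficient at `1`, `R x = P x / (C (log x)^r)` with `C = √2 e^{rγ}/|l|`.  Either `L` has no zeros in
`Re s > 1`; then `|R - 1| > ε` only on a set of measure at most `K X exp (-a √(ε log X))` in `[X, 2X]`,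
`x^{-1/12} ≤ P x ≤ x^{1/12}`, and `R → 1` or `P` has sudden jumps by fixed factors `> 1` and `< 1` in
intervals `[x, x (1 + exp (-a √(log x)))]`.  Or `L` has zeros in `Re s > 1`; then `R` does not tend to
`1`, `P` has sudden upward jumps of every size, and for each such zero `s` and every `a < Re s - 1` every
interval `[X, lam X]`, `X` large, contains a set of measure at least `X^{1-κ}` on which
`|log P x| > x^a`. -/
theorem Pool.Agent.Results.MP_3283e1_nt.Trichotomy.result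
    (k : ℕ) (hk : 0 < k) (c : ℤ) (hc : c = 1 ∨ c = -1) :
    ∃ L : ℂ → ℂ, Differentiable ℂ L ∧
      (∀ s : ℂ, 3 / 2 < s.re → HasProd (fun p : {p : ℕ // p.Prime ∧ ¬ p ∣ 2 * k} =>
        (1 - ((p : ℂ) + 1 - (W3283e1.npts (c * k ^ 2) 0 p : ℂ)) * (p : ℂ) ^ (-s)
          + (p : ℂ) ^ (1 - 2 * s))⁻¹) (L s)) ∧
      ∃ (r : ℕ) (l : ℝ), l ≠ 0 ∧
        Filter.Tendsto (fun s : ℂ => L s / (s - 1) ^ r) (nhdsWithin 1 {1}ᶜ) (nhds (l : ℂ)) ∧
        ∃ P R : ℝ → ℝ, (∀ x, P x = W3283e1.bsdProd (c * k ^ 2) 0 x) ∧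
          (∀ x, R x = P x /
            (Real.sqrt 2 * Real.exp (r * Real.eulerMascheroniConstant) / |l| * (Real.log x) ^ r)) ∧
          (((∀ s : ℂ, 1 < s.re → L s ≠ 0) ∧
            (∃ a K : ℝ, 0 < a ∧ 0 < K ∧ ∀ X ε : ℝ, 3 ≤ X → 0 < ε → ε ≤ 1 →
              MeasureTheory.volume {x : ℝ | X ≤ x ∧ x ≤ 2 * X ∧ ε < |R x - 1|} ≤
                ENNReal.ofReal (K * X * Real.exp (-(a * Real.sqrt (ε * Real.log X))))) ∧
            (∃ X : ℝ, ∀ x : ℝ, X ≤ x → x ^ (-(1 / 12 : ℝ)) ≤ P x ∧ P x ≤ x ^ (1 / 12 : ℝ)) ∧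
            (Filter.Tendsto R Filter.atTop (nhds 1) ∨
              (¬ Filter.Tendsto R Filter.atTop (nhds 1) ∧
                ∃ ε a : ℝ, 0 < ε ∧ 0 < a ∧
                  (∀ X : ℝ, ∃ x y : ℝ, X ≤ x ∧ x < y ∧
                    y ≤ x * (1 + Real.exp (-(a * Real.sqrt (Real.log x)))) ∧
                      (1 + ε) * P x ≤ P y) ∧
                  ∀ X : ℝ, ∃ x y : ℝ, X ≤ x ∧ x < y ∧
                    y ≤ x * (1 + Real.exp (-(a * Real.sqrt (Real.log x)))) ∧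
                      P y ≤ (1 - ε) * P x))) ∨
          (¬ Filter.Tendsto R Filter.atTop (nhds 1) ∧
            (∀ ε a X : ℝ, 0 < ε → 0 < a → ∃ x y : ℝ, X ≤ x ∧ x < y ∧
              y ≤ x * (1 + Real.exp (-(a * Real.sqrt (Real.log x)))) ∧ (1 + ε) * P x ≤ P y) ∧
            (∃ s : ℂ, 1 < s.re ∧ L s = 0) ∧
            ∀ s : ℂ, 1 < s.re → L s = 0 → ∀ a lam κ : ℝ, a < s.re - 1 → 1 < lam → 0 < κ →
              ∃ X0 : ℝ, ∀ X : ℝ, X0 ≤ X → ENNReal.ofReal (X ^ (1 - κ)) ≤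
                MeasureTheory.volume {x : ℝ | X ≤ x ∧ x ≤ lam * X ∧ x ^ a < |Real.log (P x)|})) := by
  obtain ⟨n, f, i, j, L, r, l, V, h⟩ := W3283g.setup k hk c hc
  refine ⟨L, h.hL, h.hprod, r, l, h.hl, h.hlim, W3283e1.bsdProd (c * k ^ 2) 0,
    W3283v.RR k c r l, fun x => rfl, fun x => rfl, ?_⟩
  by_cases hRH : ∀ s : ℂ, 1 < s.re → L s ≠ 0
  · left
    refine ⟨hRH, W3283v.tame_P k c n f i j L r l V h hRH,
      W3283q.rh_bound k c n f i j L r l V h hRH, ?_⟩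
    by_cases ht : Filter.Tendsto (W3283v.RR k c r l) Filter.atTop (nhds 1)
    · exact Or.inl ht
    · exact Or.inr ⟨ht, W3283v.jump_P k c n f i j L r l V h hRH ht⟩
  · right
    push Not at hRH
    obtain ⟨s, hs1, hs⟩ := hRH
    exact ⟨W3283v.tri_not k c n f i j L r l V h s hs1 hs,
      fun ε a X hε ha => W3283v.jump_P_false k c n f i j L r l V h s hs1 hs ε a hε ha X,
      ⟨s, hs1, hs⟩, fun s hs1 hs a lam κ ha hlam hκ =>
        W3283v.tri_wild k c n f i j L r l V h s hs a ha lam κ hlam hκ hs1⟩
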